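import Mathlib
import Pool.Agent.Q46.SchmidtA
import Pool.Agent.Q46.SchmidtB

/-! # The maximal Schmidt rank locus need not be locally closed -/

namespace Pool.Agent.Results.MP_60b600_ag.NotLocallyClosed

open MvPolynomial Q46.Schmidt

variable {K : Type*} [Field K]

/-- The Schmidt rank of a polynomial `P` of degree `d`: the least `r` such that `P` is a sum of
`r` products `Q i * R i` of polynomials of degree less than `d`. -/
noncomputable def schmidtRank {n : ℕ} (P : MvPolynomial (Fin n) K) : ℕ :=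
  sInf {r | ∃ Q R : Fin r → MvPolynomial (Fin n) K,
    (∀ i, (Q i).totalDegree < P.totalDegree ∧ (R i).totalDegree < P.totalDegree) ∧
    P = ∑ i, Q i * R i}

/-- A family of polynomials of degree exactly `d` in `n` variables parametrized by the affine
space `S = K^m`: every coefficient is a regular (that is, polynomial) function of the parameter. -/
def IsFamily (m n d : ℕ) (P : (Fin m → K) → MvPolynomial (Fin n) K) : Prop :=
  (∃ c : (Fin n →₀ ℕ) → MvPolynomial (Fin m) K, ∀ s a, coeff a (P s) = eval s (c a)) ∧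
    ∀ s, (P s).totalDegree = d

/-- The set of parameters where the rank is maximal. -/
def maxRankLocus {m n : ℕ} (P : (Fin m → K) → MvPolynomial (Fin n) K) : Set (Fin m → K) :=
  {t | ∀ s, schmidtRank (P s) ≤ schmidtRank (P t)}

/-- Zariski closed subsets of `K^m`. -/
def IsZariskiClosed {m : ℕ} (Z : Set (Fin m → K)) : Prop :=
  ∃ I : Set (MvPolynomial (Fin m) K), Z = {s | ∀ p ∈ I, eval s p = 0}

/-- The Zariski closure of a subset of `K^m`. -/
def zariskiClosure {m : ℕ} (U : Set (Fin m → K)) : Set (Fin m → K) :=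
  {s | ∀ p : MvPolynomial (Fin m) K, (∀ u ∈ U, eval u p = 0) → eval s p = 0}

/-- `U` is locally closed: it is open in its Zariski closure, that is, the complement of `U` in
its closure is cut out of the closure by a Zariski closed set. -/
def IsLocClosed {m : ℕ} (U : Set (Fin m → K)) : Prop :=
  ∃ V, IsZariskiClosed V ∧ zariskiClosure U \ U = zariskiClosure U ∩ V

/-- The family over `K^2`: `x^2 a + y^2 c + w^2 + t^2 a c + s w^2 b`. -/
noncomputable def fam (s t : K) : MvPolynomial (Fin 6) K :=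
  X 0 ^ 2 * X 1 + X 2 ^ 2 * X 3 + X 4 ^ 2 + C (t ^ 2) * (X 1 * X 3) + C s * (X 4 ^ 2 * X 5)

/-- points of `K^6` -/
def pt (x : Fin 4 → K) (w b : K) : Fin 6 → K := ![x 0, x 1, x 2, x 3, w, b]

lemma eval_fam (s t : K) (x : Fin 4 → K) (w b : K) :
    eval (pt x w b) (fam s t) = F x + w ^ 2 + t ^ 2 * (x 1 * x 3) + s * (w ^ 2 * b) := by
  simp [fam, pt, F]

lemma cub_hom (s : K) : (X 0 ^ 2 * X 1 + X 2 ^ 2 * X 3 + C s * (X 4 ^ 2 * X 5) :
    MvPolynomial (Fin 6) K).IsHomogeneous 3 := by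
  refine (IsHomogeneous.add ?_ ?_).add ?_
  · exact (isHomogeneous_X_pow 0 2).mul (isHomogeneous_X K 1)
  · exact (isHomogeneous_X_pow 2 2).mul (isHomogeneous_X K 3)
  · exact ((isHomogeneous_X_pow 4 2).mul (isHomogeneous_X K 5)).C_mul s

lemma quad_hom (t : K) : (X 4 ^ 2 + C (t ^ 2) * (X 1 * X 3) :
    MvPolynomial (Fin 6) K).IsHomogeneous 2 := by
  refine IsHomogeneous.add ?_ ?_
  · exact isHomogeneous_X_pow 4 2
  · exact ((isHomogeneous_X K 1).mul (isHomogeneous_X K 3)).C_mul _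

lemma fam_eq (s t : K) : fam s t = (X 0 ^ 2 * X 1 + X 2 ^ 2 * X 3 + C s * (X 4 ^ 2 * X 5)) +
    (X 4 ^ 2 + C (t ^ 2) * (X 1 * X 3)) := by
  unfold fam; ring

lemma hC3_fam (s t : K) : homogeneousComponent 3 (fam s t) =
    X 0 ^ 2 * X 1 + X 2 ^ 2 * X 3 + C s * (X 4 ^ 2 * X 5) := by
  rw [fam_eq, map_add, homogeneousComponent_eq_self (cub_hom s),
    homogeneousComponent_eq_zero _ _ (lt_of_le_of_lt (quad_hom t).totalDegree_le (by norm_num)),
    add_zero]

lemma eval_hC3 (s t : K) (x : Fin 4 → K) (w b : K) :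
    eval (pt x w b) (homogeneousComponent 3 (fam s t)) = F x + s * w ^ 2 * b := by
  rw [hC3_fam]; simp [pt, F]; ring

lemma totalDegree_fam (s t : K) : (fam s t).totalDegree = 3 := by
  apply le_antisymm
  · rw [fam_eq]
    exact (totalDegree_add _ _).trans (max_le (cub_hom s).totalDegree_le
      ((quad_hom t).totalDegree_le.trans (by norm_num)))
  · by_contra hlt
    push Not at hlt
    have h0 := homogeneousComponent_eq_zero 3 (fam s t) hlt
    have h1 := eval_hC3 s t ![1, 1, 0, 0] 0 0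
    rw [h0] at h1
    simp [F] at h1

lemma lin_form {p : MvPolynomial (Fin 6) K} (hp : p.IsHomogeneous 1) :
    ∃ c : Fin 6 → K, ∀ x w b, eval (pt x w b) p = D c x + c 4 * w + c 5 * b := by
  have h1 : p ∈ homogeneousSubmodule (Fin 6) K 1 := hp
  rw [homogeneousSubmodule_one_eq_span_X, Submodule.mem_span_range_iff_exists_fun] at h1
  obtain ⟨c, hc⟩ := h1
  refine ⟨c, fun x w b => ?_⟩
  rw [← hc]
  simp [Fin.sum_univ_six, pt, D, smul_eval]

lemma aff_form {p : MvPolynomial (Fin 6) K} (hp : p.totalDegree ≤ 1) :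
    ∃ (c : Fin 6 → K) (c0 : K), ∀ x w b,
      eval (pt x w b) (homogeneousComponent 1 p) = D c x + c 4 * w + c 5 * b ∧
      eval (pt x w b) p = D c x + c 4 * w + c 5 * b + c0 := by
  obtain ⟨c, hc⟩ := lin_form (homogeneousComponent_isHomogeneous 1 p)
  have h0 : (p - homogeneousComponent 1 p).totalDegree ≤ 0 := td_sub (n := 0) hp
  obtain ⟨c0, hc0⟩ : ∃ c0, p - homogeneousComponent 1 p = C c0 :=
    ⟨_, totalDegree_eq_zero_iff_eq_C.mp (Nat.le_zero.mp h0)⟩
  refine ⟨c, c0, fun x w b => ⟨hc x w b, ?_⟩⟩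
  calc eval (pt x w b) p = eval (pt x w b) (homogeneousComponent 1 p) +
        eval (pt x w b) (p - homogeneousComponent 1 p) := by rw [← map_add]; congr 1; ring
    _ = _ := by rw [hc x w b, hc0, eval_C]

lemma hC3_L {P L1 L2 A B : MvPolynomial (Fin 6) K} (h1 : L1.totalDegree ≤ 1)
    (h2 : L2.totalDegree ≤ 1) (hA : A.totalDegree ≤ 2) (hB : B.totalDegree ≤ 2)
    (hP : P = L1 * A + L2 * B) : homogeneousComponent 3 P =
      homogeneousComponent 1 L1 * homogeneousComponent 2 A +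
      homogeneousComponent 1 L2 * homogeneousComponent 2 B := by
  rw [hP, map_add, ← hC_mul h1 hA, ← hC_mul h2 hB]

lemma hC3_M {P g h u v n1 n2 m1 m2 : MvPolynomial (Fin 6) K} (hg : g.IsHomogeneous 1)
    (hh : h.IsHomogeneous 1) (hu : u.IsHomogeneous 1) (hv : v.IsHomogeneous 1)
    (hn1 : n1.totalDegree ≤ 1) (hn2 : n2.totalDegree ≤ 1) (hm1 : m1.totalDegree ≤ 1)
    (hm2 : m2.totalDegree ≤ 1)
    (hP : P = (g * u + n1) * (h * v + m1) + (g * v + n2) * (-(h * u) + m2)) :
    homogeneousComponent 3 P =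
      g * (u * homogeneousComponent 1 m1 + v * homogeneousComponent 1 m2) +
      h * (v * homogeneousComponent 1 n1 - u * homogeneousComponent 1 n2) := by
  have e : P = g * (u * m1 + v * m2) + h * (v * n1 - u * n2) + (n1 * m1 + n2 * m2) := by
    rw [hP]; ring
  have mul11 : ∀ a b : MvPolynomial (Fin 6) K, a.IsHomogeneous 1 → b.totalDegree ≤ 1 →
      homogeneousComponent 2 (a * b) = a * homogeneousComponent 1 b := by
    intro a b ha hb
    have := hC_mul ha.totalDegree_le hb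
    rw [homogeneousComponent_eq_self ha] at this
    exact this
  have td11 : ∀ a b : MvPolynomial (Fin 6) K, a.totalDegree ≤ 1 → b.totalDegree ≤ 1 →
      (a * b).totalDegree ≤ 2 := fun a b ha hb =>
    (totalDegree_mul a b).trans (by omega)
  have t1 : (u * m1 + v * m2).totalDegree ≤ 2 := (totalDegree_add _ _).trans
    (max_le (td11 _ _ hu.totalDegree_le hm1) (td11 _ _ hv.totalDegree_le hm2))
  have t2 : (v * n1 - u * n2).totalDegree ≤ 2 := (totalDegree_sub _ _).trans
    (max_le (td11 _ _ hv.totalDegree_le hn1) (td11 _ _ hu.totalDegree_le hn2))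
  have t3 : (n1 * m1 + n2 * m2).totalDegree ≤ 2 := (totalDegree_add _ _).trans
    (max_le (td11 _ _ hn1 hm1) (td11 _ _ hn2 hm2))
  have e1 : homogeneousComponent 3 (g * (u * m1 + v * m2)) =
      g * (u * homogeneousComponent 1 m1 + v * homogeneousComponent 1 m2) := by
    have := hC_mul hg.totalDegree_le t1
    rw [homogeneousComponent_eq_self hg, map_add, mul11 _ _ hu hm1, mul11 _ _ hv hm2] at this
    exact this
  have e2 : homogeneousComponent 3 (h * (v * n1 - u * n2)) =
      h * (v * homogeneousComponent 1 n1 - u * homogeneousComponent 1 n2) := by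
    have := hC_mul hh.totalDegree_le t2
    rw [homogeneousComponent_eq_self hh, map_sub, mul11 _ _ hv hn1, mul11 _ _ hu hn2] at this
    exact this
  rw [e, map_add, map_add, e1, e2, homogeneousComponent_eq_zero 3 _ (by omega), add_zero]

section lower

variable [Infinite K]

lemma no_two (s t : K) (hst : s ≠ 0 ∨ (s = 0 ∧ t = 0)) (Q1 R1 Q2 R2 : MvPolynomial (Fin 6) K)
    (hQ1 : Q1.totalDegree ≤ 2) (hR1 : R1.totalDegree ≤ 2) (hQ2 : Q2.totalDegree ≤ 2)
    (hR2 : R2.totalDegree ≤ 2) (hPQ : fam s t = Q1 * R1 + Q2 * R2) : False := by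
  rcases shapes (totalDegree_fam s t).le hQ1 hR1 hQ2 hR2 hPQ with hL | hM
  · obtain ⟨L1, L2, A, B, h1, h2, hA, hB, hP⟩ := hL
    have h3 := hC3_L h1 h2 hA hB hP
    obtain ⟨g, c1, hg⟩ := aff_form h1
    obtain ⟨h, c2, hh⟩ := aff_form h2
    have hv : ∀ (x : Fin 4 → K) (w b : K), D g x + g 4 * w + g 5 * b = 0 →
        D h x + h 4 * w + h 5 * b = 0 → F x + s * w ^ 2 * b = 0 := by
      intro x w b e1 e2
      rw [← eval_hC3 s t, h3, map_add, map_mul, map_mul, (hg x w b).1, (hh x w b).1, e1, e2]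
      ring
    rcases hst with hs | ⟨hs, ht⟩
    · exact no_codim2 s hs g h hv
    · subst hs; subst ht
      refine caseL g h c1 c2 (fun x w b => eval (pt x w b) A) (fun x w b => eval (pt x w b) B)
        ?_ ?_
      · intro x w b
        have := eval_fam 0 0 x w b
        rw [hP, map_add, map_mul, map_mul, (hg x w b).2, (hh x w b).2] at this
        linear_combination -this
      · intro x w b e1 e2
        have := hv x w b e1 e2
        linear_combination this
  · obtain ⟨g, h, u, v, n1, n2, m1, m2, hg, hh, hu, hv, hn1, hn2, hm1, hm2, hP⟩ := hM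
    have h3 := hC3_M hg hh hu hv hn1 hn2 hm1 hm2 hP
    obtain ⟨cg, hcg⟩ := lin_form hg
    obtain ⟨ch, hch⟩ := lin_form hh
    obtain ⟨cu, hcu⟩ := lin_form hu
    obtain ⟨cv, hcv⟩ := lin_form hv
    obtain ⟨cn1, dn1, hcn1⟩ := aff_form hn1
    obtain ⟨cn2, dn2, hcn2⟩ := aff_form hn2
    obtain ⟨cm1, dm1, hcm1⟩ := aff_form hm1
    obtain ⟨cm2, dm2, hcm2⟩ := aff_form hm2
    have hF3 : ∀ x w b, F x + s * w ^ 2 * b =
        (D cg x + cg 4 * w + cg 5 * b) * ((D cu x + cu 4 * w + cu 5 * b) *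
          (D cm1 x + cm1 4 * w + cm1 5 * b) + (D cv x + cv 4 * w + cv 5 * b) *
          (D cm2 x + cm2 4 * w + cm2 5 * b)) +
        (D ch x + ch 4 * w + ch 5 * b) * ((D cv x + cv 4 * w + cv 5 * b) *
          (D cn1 x + cn1 4 * w + cn1 5 * b) - (D cu x + cu 4 * w + cu 5 * b) *
          (D cn2 x + cn2 4 * w + cn2 5 * b)) := by
      intro x w b
      rw [← eval_hC3 s t, h3]
      simp only [map_add, map_mul, map_sub]
      rw [hcg, hch, hcu, hcv, (hcn1 x w b).1, (hcn2 x w b).1, (hcm1 x w b).1, (hcm2 x w b).1]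
    rcases hst with hs | ⟨hs, ht⟩
    · refine no_codim2 s hs cg ch ?_
      intro x w b e1 e2
      rw [hF3, e1, e2]; ring
    · subst hs; subst ht
      refine caseM cg ch cu cv cn1 cn2 cm1 cm2 dn1 dn2 dm1 dm2 ?_ ?_
      · intro x w b
        have := eval_fam 0 0 x w b
        rw [hP] at this
        simp only [map_add, map_mul, map_neg] at this
        rw [hcg, hch, hcu, hcv, (hcn1 x w b).2, (hcn2 x w b).2, (hcm1 x w b).2,
          (hcm2 x w b).2] at this
        linear_combination -this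
      · intro x w b
        have := hF3 x w b
        linear_combination this

lemma rank_ge (s t : K) (hst : s ≠ 0 ∨ (s = 0 ∧ t = 0)) {r : ℕ}
    (Q R : Fin r → MvPolynomial (Fin 6) K)
    (hQ : ∀ i, (Q i).totalDegree < (fam s t).totalDegree ∧
      (R i).totalDegree < (fam s t).totalDegree) (hP : fam s t = ∑ i, Q i * R i) : 3 ≤ r := by
  rw [totalDegree_fam] at hQ
  have hQ' : ∀ i, (Q i).totalDegree ≤ 2 ∧ (R i).totalDegree ≤ 2 := by
    intro i
    have := hQ i
    omega
  by_contra hlt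
  push Not at hlt
  interval_cases r
  · apply no_two s t hst 0 0 0 0 <;> simp
    simpa using hP
  · apply no_two s t hst (Q 0) (R 0) 0 0 (hQ' 0).1 (hQ' 0).2 <;> simp
    simpa using hP
  · exact no_two s t hst (Q 0) (R 0) (Q 1) (R 1) (hQ' 0).1 (hQ' 0).2 (hQ' 1).1 (hQ' 1).2
      (by rw [hP, Fin.sum_univ_two])

end lower

lemma td_X (i : Fin 6) : (X i : MvPolynomial (Fin 6) K).totalDegree ≤ 2 :=
  ((isHomogeneous_X K i).totalDegree_le).trans (by norm_num)

lemma td_mul2 {a b : MvPolynomial (Fin 6) K} (ha : a.totalDegree ≤ 1) (hb : b.totalDegree ≤ 1) :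
    (a * b).totalDegree ≤ 2 := (totalDegree_mul a b).trans (by omega)

lemma td_X1 (i : Fin 6) : (X i : MvPolynomial (Fin 6) K).totalDegree ≤ 1 :=
  (isHomogeneous_X K i).totalDegree_le

lemma td_CX (c : K) (i : Fin 6) : (C c * X i : MvPolynomial (Fin 6) K).totalDegree ≤ 1 :=
  ((isHomogeneous_X K i).C_mul c).totalDegree_le

lemma mem3 (s t : K) : ∃ Q R : Fin 3 → MvPolynomial (Fin 6) K,
    (∀ i, (Q i).totalDegree < (fam s t).totalDegree ∧
      (R i).totalDegree < (fam s t).totalDegree) ∧ fam s t = ∑ i, Q i * R i := by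
  refine ⟨![X 0, X 3, X 4], ![X 0 * X 1, X 2 * X 2 + C (t ^ 2) * X 1,
    X 4 + (C s * X 4) * X 5], ?_, ?_⟩
  · rw [totalDegree_fam]
    intro i
    have a1 : (X 0 * X 1 : MvPolynomial (Fin 6) K).totalDegree ≤ 2 := td_mul2 (td_X1 0) (td_X1 1)
    have a2 : (X 2 * X 2 + C (t ^ 2) * X 1 : MvPolynomial (Fin 6) K).totalDegree ≤ 2 :=
      (totalDegree_add _ _).trans (max_le (td_mul2 (td_X1 2) (td_X1 2))
        ((td_CX (t ^ 2) 1).trans (by norm_num)))
    have a3 : (X 4 + (C s * X 4) * X 5 : MvPolynomial (Fin 6) K).totalDegree ≤ 2 :=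
      (totalDegree_add _ _).trans (max_le (td_X 4) (td_mul2 (td_CX s 4) (td_X1 5)))
    match i with
    | 0 => exact ⟨lt_of_le_of_lt (td_X 0) (by norm_num), lt_of_le_of_lt a1 (by norm_num)⟩
    | 1 => exact ⟨lt_of_le_of_lt (td_X 3) (by norm_num), lt_of_le_of_lt a2 (by norm_num)⟩
    | 2 => exact ⟨lt_of_le_of_lt (td_X 4) (by norm_num), lt_of_le_of_lt a3 (by norm_num)⟩
  · rw [Fin.sum_univ_three]
    show fam s t = X 0 * (X 0 * X 1) + X 3 * (X 2 * X 2 + C (t ^ 2) * X 1) +
      X 4 * (X 4 + (C s * X 4) * X 5)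
    unfold fam
    ring

lemma mem2 (t : K) (ht : t ≠ 0) : ∃ Q R : Fin 2 → MvPolynomial (Fin 6) K,
    (∀ i, (Q i).totalDegree < (fam 0 t).totalDegree ∧
      (R i).totalDegree < (fam 0 t).totalDegree) ∧ fam 0 t = ∑ i, Q i * R i := by
  refine ⟨![C t * X 1 + (C t⁻¹ * X 2) * X 2, X 4 - (C t⁻¹ * X 0) * X 2],
    ![C t * X 3 + (C t⁻¹ * X 0) * X 0, X 4 + (C t⁻¹ * X 0) * X 2], ?_, ?_⟩
  · rw [totalDegree_fam]
    intro i
    have a1 : ∀ i j : Fin 6, (C t * X i + (C t⁻¹ * X j) * X j :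
        MvPolynomial (Fin 6) K).totalDegree ≤ 2 := fun i j =>
      (totalDegree_add _ _).trans (max_le ((td_CX t i).trans (by norm_num))
        (td_mul2 (td_CX _ j) (td_X1 j)))
    have a2 : (X 4 - (C t⁻¹ * X 0) * X 2 : MvPolynomial (Fin 6) K).totalDegree ≤ 2 :=
      (totalDegree_sub _ _).trans (max_le (td_X 4) (td_mul2 (td_CX _ 0) (td_X1 2)))
    have a3 : (X 4 + (C t⁻¹ * X 0) * X 2 : MvPolynomial (Fin 6) K).totalDegree ≤ 2 :=
      (totalDegree_add _ _).trans (max_le (td_X 4) (td_mul2 (td_CX _ 0) (td_X1 2)))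
    match i with
    | 0 => exact ⟨lt_of_le_of_lt (a1 1 2) (by norm_num), lt_of_le_of_lt (a1 3 0) (by norm_num)⟩
    | 1 => exact ⟨lt_of_le_of_lt a2 (by norm_num), lt_of_le_of_lt a3 (by norm_num)⟩
  · rw [Fin.sum_univ_two]
    show fam 0 t = (C t * X 1 + (C t⁻¹ * X 2) * X 2) * (C t * X 3 + (C t⁻¹ * X 0) * X 0) +
      (X 4 - (C t⁻¹ * X 0) * X 2) * (X 4 + (C t⁻¹ * X 0) * X 2)
    have hC1 : (C t : MvPolynomial (Fin 6) K) * C t⁻¹ = 1 := by
      rw [← C_mul, mul_inv_cancel₀ ht, C_1]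
    unfold fam
    rw [C_0, C_pow]
    linear_combination (-(X 0 ^ 2 * X 1 + X 2 ^ 2 * X 3)) * hC1

/-- univariate restriction -/
lemma restrict (p : MvPolynomial (Fin 2) K) (b : K) :
    ∃ f : Polynomial K, ∀ a, f.eval a = eval ![a, b] p := by
  refine ⟨aeval ![Polynomial.X, Polynomial.C b] p, fun a => ?_⟩
  induction p using MvPolynomial.induction_on with
  | C c => simp
  | add p q hp hq => rw [map_add, Polynomial.eval_add, hp, hq, map_add]
  | mul_X p i hp =>
    rw [map_mul, Polynomial.eval_mul, hp, map_mul]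
    congr 1
    fin_cases i <;> simp

lemma restrict' (p : MvPolynomial (Fin 2) K) (a : K) :
    ∃ f : Polynomial K, ∀ b, f.eval b = eval ![a, b] p := by
  refine ⟨aeval ![Polynomial.C a, Polynomial.X] p, fun b => ?_⟩
  induction p using MvPolynomial.induction_on with
  | C c => simp
  | add p q hp hq => rw [map_add, Polynomial.eval_add, hp, hq, map_add]
  | mul_X p i hp =>
    rw [map_mul, Polynomial.eval_mul, hp, map_mul]
    congr 1
    fin_cases i <;> simp

lemma poly_zero [Infinite K] (f : Polynomial K) (h : ∀ a, a ≠ 0 → f.eval a = 0) :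
    f.eval 0 = 0 := by
  have : Polynomial.X * f = 0 := by
    apply Polynomial.funext
    intro r
    by_cases hr : r = 0
    · simp [hr]
    · simp [h r hr]
  have hf : f = 0 := (mul_eq_zero.mp this).resolve_left Polynomial.X_ne_zero
  simp [hf]

/-- The family over the plane, as a function of the parameter. -/
noncomputable def P (s : Fin 2 → K) : MvPolynomial (Fin 6) K := fam (s 0) (s 1)

lemma rank_eq3 [Infinite K] (s : Fin 2 → K) (hs : s 0 ≠ 0 ∨ (s 0 = 0 ∧ s 1 = 0)) :
    schmidtRank (P s) = 3 := by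
  unfold schmidtRank P
  apply le_antisymm
  · exact Nat.sInf_le (mem3 _ _)
  · have hne : {r | ∃ Q R : Fin r → MvPolynomial (Fin 6) K,
      (∀ i, (Q i).totalDegree < (fam (s 0) (s 1)).totalDegree ∧
        (R i).totalDegree < (fam (s 0) (s 1)).totalDegree) ∧
      fam (s 0) (s 1) = ∑ i, Q i * R i}.Nonempty := ⟨3, mem3 _ _⟩
    apply le_csInf hne
    rintro r ⟨Q, R, h1, h2⟩
    exact rank_ge _ _ hs Q R h1 h2

lemma rank_le3 (s : Fin 2 → K) : schmidtRank (P s) ≤ 3 := Nat.sInf_le (mem3 _ _)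

lemma rank_le2 (s : Fin 2 → K) (h0 : s 0 = 0) (h1 : s 1 ≠ 0) : schmidtRank (P s) ≤ 2 := by
  unfold P
  rw [h0]
  exact Nat.sInf_le (mem2 _ h1)

lemma locus [Infinite K] (s : Fin 2 → K) :
    s ∈ maxRankLocus (P (K := K)) ↔ (s 0 ≠ 0 ∨ (s 0 = 0 ∧ s 1 = 0)) := by
  constructor
  · intro hs
    by_contra hcon
    push Not at hcon
    have h1 := rank_le2 s hcon.1 (hcon.2 hcon.1)
    have h2 := hs 0
    rw [rank_eq3 0 (Or.inr ⟨rfl, rfl⟩)] at h2
    omega
  · intro hs t
    rw [rank_eq3 s hs]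
    exact rank_le3 t

lemma family : IsFamily 2 6 3 (P (K := K)) := by
  refine ⟨⟨fun a => coeff a (X 0 ^ 2 * X 1 + X 2 ^ 2 * X 3 + X 4 ^ 2 +
    C (X 1 ^ 2) * (X 1 * X 3) + C (X 0) * (X 4 ^ 2 * X 5) :
      MvPolynomial (Fin 6) (MvPolynomial (Fin 2) K)), ?_⟩, fun s => totalDegree_fam _ _⟩
  intro s a
  rw [← coeff_map]
  congr 1
  simp [P, fam]

/-- Over every algebraically closed field `K` there is a family of cubic polynomials in six
variables, parametrized by the plane, whose maximal rank locus is not locally closed: the family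
`P (s, t) = x^2 a + y^2 c + w^2 + t^2 a c + s w^2 b`, which has rank `3` for `s ≠ 0` and for
`s = t = 0`, and rank at most `2` for `s = 0`, `t ≠ 0`. -/
theorem result (K : Type*) [Field K] [IsAlgClosed K] :
    ∃ P : (Fin 2 → K) → MvPolynomial (Fin 6) K,
      (∀ s, P s = X 0 ^ 2 * X 1 + X 2 ^ 2 * X 3 + X 4 ^ 2 + C (s 1 ^ 2) * (X 1 * X 3) +
        C (s 0) * (X 4 ^ 2 * X 5)) ∧
      IsFamily 2 6 3 P ∧
      (∀ s, (s 0 ≠ 0 ∨ (s 0 = 0 ∧ s 1 = 0)) → schmidtRank (P s) = 3) ∧
      (∀ s, s 0 = 0 → s 1 ≠ 0 → schmidtRank (P s) ≤ 2) ∧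
      maxRankLocus P = {s | s 0 ≠ 0 ∨ (s 0 = 0 ∧ s 1 = 0)} ∧
      ¬ IsLocClosed (maxRankLocus P) := by
  have : Infinite K := IsAlgClosed.instInfinite
  refine ⟨P, fun s => rfl, family, rank_eq3, rank_le2, Set.ext locus, ?_⟩
  rintro ⟨V, ⟨I, hI⟩, hV⟩
  have hcl : ∀ s : Fin 2 → K, s ∈ zariskiClosure (maxRankLocus (P (K := K))) := by
    intro s p hp
    by_cases h0 : s 0 = 0
    · obtain ⟨f, hf⟩ := restrict p (s 1)
      have := poly_zero f (fun a ha => by
        rw [hf]
        exact hp _ ((locus _).mpr (Or.inl (by simpa using ha))))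
      rw [hf] at this
      have e : s = ![0, s 1] := by
        funext i; fin_cases i
        · simpa using h0
        · rfl
      rw [e]; exact this
    · exact hp s ((locus _).mpr (Or.inl h0))
  have h00 : (0 : Fin 2 → K) ∈ V := by
    rw [hI]
    intro p hp
    obtain ⟨f, hf⟩ := restrict' p 0
    have := poly_zero f (fun b hb => by
      rw [hf]
      have hm : ![0, b] ∈ zariskiClosure (maxRankLocus (P (K := K))) ∩ V := by
        rw [← hV]
        refine ⟨hcl _, fun hmem => ?_⟩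
        have := (locus _).mp hmem
        simp at this
        exact hb this
      have hm2 := hm.2
      rw [hI] at hm2
      exact hm2 p hp)
    rw [hf] at this
    have e : (0 : Fin 2 → K) = ![0, 0] := by
      funext i; fin_cases i <;> rfl
    rw [e]; exact this
  have : (0 : Fin 2 → K) ∈ zariskiClosure (maxRankLocus (P (K := K))) \ maxRankLocus P := by
    rw [hV]; exact ⟨hcl 0, h00⟩
  exact this.2 ((locus 0).mpr (Or.inr ⟨rfl, rfl⟩))

end Pool.Agent.Results.MP_60b600_ag.NotLocallyClosed
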